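import Pool.Agent.W288.Arc3

set_option autoImplicit false
set_option linter.unusedSectionVars false

namespace Pool.Agent.W288.Arc

open Finset TrivSqZeroExt DualNumber
open Pool.Agent.W288.Hjelmslev

variable {F : Type} [Field F] [Fintype F] [DecidableEq F]

lemma sum_z2 (f : (Fin 3 → F) → ℕ) :
    ∑ z with z 2 = 0, f z = ∑ z0 : F, ∑ z1 : F, f ![z0, z1, 0] := by
  rw [← Finset.sum_product']
  symm
  refine Finset.sum_nbij' (fun p => ![p.1, p.2, 0]) (fun z => (z 0, z 1)) ?_ ?_ ?_ ?_ ?_
  · intro p _; simp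
  · intro z _; simp
  · intro p _; simp
  · intro z hz
    simp only [mem_filter, mem_univ, true_and] at hz
    funext i
    fin_cases i <;> simp [hz]
  · intro p _; rfl

/-- lines in the special class -/
lemma line_kk_2 {A T : Finset F} {t : ℕ} (hA : #A = t) (ht2 : 2 ≤ t) (h1T : (1 : F) ∈ T)
    {n : ℕ} (hn : Fintype.card F ^ 2 ≤ n) {α : F} (hα : α ≠ 0) (b : Fin 3 → F) :
    S (kk A T) (α • e2) b ≤ (Fintype.card F ^ 2 - Fintype.card F) * n := by
  set q := Fintype.card F with hq
  have hq2 : 2 ≤ q := Fintype.one_lt_card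
  have hdot : ∀ z : Fin 3 → F, (α • e2) ⬝ᵥ z = α * z 2 := by
    intro z; rw [smul_dotProduct, dotProduct_comm, dot_e2, smul_eq_mul]
  have h1 : S (kk A T) (α • e2) b = q ^ 2 * ∑ z with z 2 = 0, hv A T z (-(b ⬝ᵥ z) / α) := by
    unfold S
    rw [Finset.sum_filter, Finset.mul_sum]
    refine Finset.sum_congr rfl fun z _ => ?_
    by_cases hz : z 2 = 0
    · rw [if_pos hz]
      have h2 : ∀ y : Fin 3 → F, (if (α • e2) ⬝ᵥ z = 0 ∧ (α • e2) ⬝ᵥ y + b ⬝ᵥ z = 0 then
          kk A T z y else 0) =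
          if y ⬝ᵥ e2 = -(b ⬝ᵥ z) / α then hv A T z (-(b ⬝ᵥ z) / α) else 0 := by
        intro y
        rw [hdot, hdot, dot_e2, hz, mul_zero]
        by_cases hy : y 2 = -(b ⬝ᵥ z) / α
        · have hy' : α * y 2 + b ⬝ᵥ z = 0 := by rw [hy]; field_simp; ring
          simp [hy, kk, mul_div_cancel₀ _ hα]
        · have hy' : ¬ (α * y 2 + b ⬝ᵥ z = 0) := by
            intro h
            apply hy
            rw [eq_div_iff hα]
            linear_combination h
          simp [hy, hy']
      rw [Finset.sum_congr rfl (fun y _ => h2 y)]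
      rw [← Finset.sum_filter, Finset.sum_const, card1 e2_ne, smul_eq_mul]
    · have : ∀ y : Fin 3 → F, (if (α • e2) ⬝ᵥ z = 0 ∧ (α • e2) ⬝ᵥ y + b ⬝ᵥ z = 0 then
          kk A T z y else 0) = 0 := by
        intro y
        rw [if_neg]
        rintro ⟨h, _⟩
        rw [hdot] at h
        rcases mul_eq_zero.1 h with h | h
        · exact hα h
        · exact hz h
      rw [Finset.sum_congr rfl (fun y _ => this y)]
      simp [hz]
  rw [h1, sum_z2]
  -- constants
  set c0 : F := b 0 / α with hc0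
  set c1 : F := b 1 / α with hc1
  set M : ℕ := ∑ m : F, (if -c0 - m * (c1 + 1) ∈ A then 0 else 1) with hM
  set V : ℕ := if c1 = 0 then 2 else if -c1 ∈ T then 0 else 1 with hV
  have hval : ∀ z0 z1 : F, -(b ⬝ᵥ ![z0, z1, 0]) / α = -(c0 * z0 + c1 * z1) := by
    intro z0 z1
    simp only [hc0, hc1, dotProduct, Fin.sum_univ_three]
    simp
    field_simp
  have h2 : ∀ z0 : F, z0 ≠ 0 → ∑ z1 : F, hv A T ![z0, z1, 0] (-(b ⬝ᵥ ![z0, z1, 0]) / α) = M := by
    intro z0 hz0
    rw [hM]
    refine Fintype.sum_equiv (Equiv.divRight₀ z0 hz0) _ _ ?_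
    intro z1
    rw [hval]
    have e1 : -(c0 * z0 + c1 * z1) / z0 - z1 / z0 = -c0 - z1 / z0 * (c1 + 1) := by
      field_simp
      ring
    simp only [hv, Equiv.divRight₀_apply, ← e1]
    simp [hz0]
  have h3 : ∑ z1 : F, hv A T ![0, z1, 0] (-(b ⬝ᵥ ![0, z1, 0]) / α) = (q - 1) * V := by
    rw [← Finset.sum_erase_add _ _ (mem_univ (0 : F))]
    have h4 : hv A T ![0, 0, 0] (-(b ⬝ᵥ ![0, 0, 0]) / α) = 0 := by simp [hv]
    rw [h4, add_zero]
    have h5 : ∀ z1 ∈ univ.erase (0 : F), hv A T ![0, z1, 0] (-(b ⬝ᵥ ![0, z1, 0]) / α) = V := by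
      intro z1 hz1
      have hz1' : z1 ≠ 0 := (mem_erase.1 hz1).1
      rw [hval]
      have e1 : -(c0 * 0 + c1 * z1) = -c1 * z1 := by ring
      rw [e1, hV]
      have e2' : -c1 * z1 / z1 = -c1 := by field_simp
      simp only [hv, Matrix.cons_val, ne_eq, not_true_eq_false, if_false, hz1', not_false_eq_true,
        if_true, e2']
      simp [hz1']
    rw [Finset.sum_congr rfl h5, Finset.sum_const, Finset.card_erase_of_mem (mem_univ _),
      Finset.card_univ, smul_eq_mul]
  have hMV : M + V ≤ q := by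
    by_cases hc : c1 + 1 = 0
    · have hc' : c1 = -1 := by linear_combination hc
      have hV0 : V = 0 := by
        rw [hV, hc']
        simp [h1T]
      have hMq : M ≤ q := by
        calc M ≤ ∑ m : F, 1 := by
              rw [hM]
              refine Finset.sum_le_sum fun m _ => ?_
              split_ifs <;> omega
          _ = q := by simp [hq]
      omega
    · have hM' : M = ∑ d : F, (if d ∈ A then 0 else 1) := by
        rw [hM]
        refine Fintype.sum_equiv ((Equiv.mulRight₀ (c1 + 1) hc).trans (Equiv.subLeft (-c0))) _ _ ?_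
        intro m
        simp
      have e3 : ∑ d : F, ((if d ∈ A then 0 else 1) + (if d ∈ A then 1 else 0)) =
          ∑ d : F, 1 := by
        refine Finset.sum_congr rfl fun d _ => ?_
        by_cases hd' : d ∈ A <;> simp [hd']
      rw [Finset.sum_add_distrib] at e3
      simp only [sum_ite_mem, univ_inter, sum_const, smul_eq_mul, mul_one, card_univ, hA] at e3
      have hV2 : V ≤ 2 := by
        rw [hV]
        split_ifs <;> omega
      rw [← hM'] at e3
      omega
  rw [← Finset.sum_erase_add _ _ (mem_univ (0 : F)), h3,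
    Finset.sum_congr rfl (fun z0 hz0 => h2 z0 (mem_erase.1 hz0).1), Finset.sum_const,
    Finset.card_erase_of_mem (mem_univ _), Finset.card_univ, smul_eq_mul, ← Nat.mul_add, ← hq]
  have e1 : q ^ 2 - q = q * (q - 1) := by rw [Nat.mul_sub, mul_one, sq]
  rw [e1]
  calc q ^ 2 * ((q - 1) * (M + V)) ≤ q ^ 2 * ((q - 1) * q) := by gcongr
    _ = q * (q - 1) * q ^ 2 := by ring
    _ ≤ q * (q - 1) * n := by gcongr

/-! ### translation -/

open Classical in
lemma size_eq (K : Point F[ε] → ℕ) : size K = ∑ P, K P := by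
  unfold size
  rw [finsum_eq_sum_of_fintype]

open Classical in
lemma onLine_eq (K : Point F[ε] → ℕ) (L : Line F[ε]) :
    onLine K L = ∑ P, if P.1 ≤ L.1 then K P else 0 := by
  unfold onLine
  rw [finsum_eq_sum_of_fintype, ← Finset.sum_filter]
  symm
  exact Finset.sum_subtype _ (by simp) _

lemma two_le : 2 ≤ Fintype.card F := Fintype.one_lt_card

lemma pos_qq : 0 < Fintype.card F ^ 2 - Fintype.card F := by
  have h := two_le (F := F)
  have : Fintype.card F * 2 ≤ Fintype.card F ^ 2 := by rw [sq]; gcongr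
  omega

lemma card_fin3 : Fintype.card (Fin 3 → F) = Fintype.card F ^ 3 := by simp

/-- the upper bound for the size of an arc. -/
theorem arc_le {n : ℕ} (hn : Fintype.card F ^ 2 ≤ n) (K : Point F[ε] → ℕ) (k : ℕ)
    (h : IsArc K k n) :
    k ≤ Fintype.card F * (Fintype.card F + 1) * n - Fintype.card F ^ 3 := by
  have hS : ∀ a b, a ≠ 0 → S (km K) a b ≤ (Fintype.card F ^ 2 - Fintype.card F) * n := by
    intro a b ha
    rw [S_km K a b ha, ← onLine_eq]
    exact Nat.mul_le_mul_left _ (h.2 _)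
  have h1 := upper (km_mult K) hn hS
  rw [sum_km, ← size_eq, h.1] at h1
  set q := Fintype.card F with hq
  have hq2 : 2 ≤ q := two_le
  have e1 : (q ^ 2 - 1) * (q ^ 2 * n) = (q ^ 2 - q) * (q * (q + 1) * n) := by
    zify [show q ≤ q ^ 2 from Nat.le_self_pow (by norm_num) q, show 1 ≤ q ^ 2 from Nat.one_le_pow _ _ (by omega)]
    ring
  rw [e1, mul_comm (q ^ 3), ← Nat.mul_add] at h1
  have h2 := Nat.le_of_mul_le_mul_left h1 pos_qq
  omega

lemma isChain : IsChainRingTwo F[ε] (Fintype.card F) := by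
  have hj : (⊥ : Ideal F[ε]).jacobson = IsLocalRing.maximalIdeal F[ε] :=
    IsLocalRing.jacobson_eq_maximalIdeal _ bot_ne_top
  have hj' : (⊥ : Ideal F[ε]).jacobson = Ideal.span {ε} := by
    rw [hj, DualNumber.maximalIdeal_eq_span_singleton_eps]
  refine ⟨inferInstance, ?_, ?_, ?_, ?_⟩
  · intro I J
    rcases DualNumber.ideal_trichotomy I with h | h | h <;>
      rcases DualNumber.ideal_trichotomy J with h' | h' | h' <;> subst h <;> subst h' <;> simp
  · rw [hj']
    intro h
    rw [Ideal.span_singleton_eq_bot] at h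
    have := congrArg snd h
    simp at this
  · rw [hj', Ideal.span_singleton_pow, sq, DualNumber.eps_mul_eps]
    simp
  · rw [hj']
    have hker : RingHom.ker (TrivSqZeroExt.fstHom F F F).toRingHom = Ideal.span {(ε : F[ε])} := by
      ext x
      rw [RingHom.mem_ker, Ideal.mem_span_singleton, ← DualNumber.fst_eq_zero_iff_eps_dvd]
      rfl
    have hs : Function.Surjective (TrivSqZeroExt.fstHom F F F).toRingHom := by
      intro a
      exact ⟨inl a, by simp⟩
    rw [← hker, ← Nat.card_eq_fintype_card]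
    exact Nat.card_congr (RingHom.quotientKerEquivOfSurjective hs).toEquiv

/-- the example -/
theorem example_arc {n : ℕ} (h1 : Fintype.card F ^ 2 + 2 ≤ n)
    (h2 : n + 2 ≤ Fintype.card F ^ 2 + Fintype.card F) :
    ∃ K : Point F[ε] → ℕ,
      IsMaximalArc K (Fintype.card F * (Fintype.card F + 1) * n - Fintype.card F ^ 3) n ∧
        ∃ x, K x = 2 := by
  set q := Fintype.card F with hq
  obtain ⟨t, ht⟩ : ∃ t, n + t = q ^ 2 + q := ⟨q ^ 2 + q - n, by omega⟩
  have ht2 : 2 ≤ t := by omega
  have htq : t + 2 ≤ q := by omega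
  -- the sets A and T
  obtain ⟨A, _, hA⟩ := Finset.exists_subset_card_eq (s := (univ : Finset F)) (n := t)
    (by rw [Finset.card_univ]; omega)
  obtain ⟨T, hT1, hT2, hT⟩ := Finset.exists_subsuperset_card_eq (s := {(1 : F)})
    (t := univ.erase (0 : F)) (n := t + 1) (by simp) (by simp)
    (by rw [Finset.card_erase_of_mem (mem_univ _), Finset.card_univ]; omega)
  have h1T : (1 : F) ∈ T := hT1 (by simp)
  have h0T : (0 : F) ∉ T := fun h => by simpa using hT2 h
  refine ⟨Kex A T, ⟨⟨?_, ?_⟩, ?_⟩, ?_⟩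
  · have h3 := total_kk hA hT h0T ht (by omega)
    rw [← km_Kex, sum_km, ← size_eq] at h3
    exact Nat.eq_of_mul_eq_mul_left pos_qq h3
  · intro L
    obtain ⟨a, b, ha, rfl⟩ := exists_ln L
    have h3 : S (kk A T) a b ≤ (q ^ 2 - q) * n := by
      by_cases hae : ∀ α : F, a ≠ α • e2
      · exact line_kk_1 hA hT h0T ht hae
      · push Not at hae
        obtain ⟨α, rfl⟩ := hae
        have hα : α ≠ 0 := by
          rintro rfl
          exact ha (zero_smul _ _)
        exact line_kk_2 hA ht2 h1T (le_trans (Nat.le_add_right _ _) h1) hα b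
    rw [← km_Kex, S_km _ _ _ ha, ← onLine_eq] at h3
    exact Nat.le_of_mul_le_mul_left h3 pos_qq
  · intro K' k' h
    exact arc_le (le_trans (Nat.le_add_right _ _) h1) K' k' h
  · have hx : (![0, 1, 0] : Fin 3 → F) ≠ 0 := by
      intro h
      have := congrFun h 1
      simp at this
    refine ⟨pt ![0, 1, 0] 0 hx, ?_⟩
    rw [Kex_pt]
    simp [kk, hv]

end Pool.Agent.W288.Arc
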