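import Mathlib

set_option autoImplicit false

/-!
Projective Hjelmslev planes `PHG(2, R)` over a finite commutative chain ring `R` and their
multiarcs.
-/

namespace Pool.Agent.W288.Hjelmslev

/-- `R` is a finite (commutative) chain ring of nilpotency index `2` whose residue field has `q`
elements: its ideals are totally ordered by inclusion, its radical `rad R` satisfies
`rad R ≠ 0`, `(rad R) ^ 2 = 0`, and `R / rad R` has `q` elements. -/
structure IsChainRingTwo (R : Type) [CommRing R] (q : ℕ) : Prop where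
  finite : Finite R
  chain : ∀ I J : Ideal R, I ≤ J ∨ J ≤ I
  rad_ne : (⊥ : Ideal R).jacobson ≠ ⊥
  rad_sq : (⊥ : Ideal R).jacobson ^ 2 = ⊥
  residue : Nat.card (R ⧸ (⊥ : Ideal R).jacobson) = q

/-- Points of `PHG(2, R)`: the free submodules of rank `1` of `R ^ 3`. -/
def Point (R : Type) [CommRing R] : Type :=
  {P : Submodule R (Fin 3 → R) // Nonempty (Module.Basis (Fin 1) R P)}

/-- Lines of `PHG(2, R)`: the free submodules of rank `2` of `R ^ 3`. -/
def Line (R : Type) [CommRing R] : Type :=
  {L : Submodule R (Fin 3 → R) // Nonempty (Module.Basis (Fin 2) R L)}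

/-- The total multiplicity `|K|` of a multiset `K` of points. -/
noncomputable def size {R : Type} [CommRing R] (K : Point R → ℕ) : ℕ :=
  ∑ᶠ x : Point R, K x

/-- The multiplicity `K(L)` of a line `L`: the sum of `K x` over the points `x` on `L`. -/
noncomputable def onLine {R : Type} [CommRing R] (K : Point R → ℕ) (L : Line R) : ℕ :=
  ∑ᶠ x : {x : Point R // x.1 ≤ L.1}, K x.1

/-- `K` is a `(k, n)`-arc: `|K| = k` and `K(L) ≤ n` for every line `L`. -/
def IsArc {R : Type} [CommRing R] (K : Point R → ℕ) (k n : ℕ) : Prop :=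
  size K = k ∧ ∀ L : Line R, onLine K L ≤ n

/-- `K` is a maximal `(k, n)`-arc: it is a `(k, n)`-arc and every `(k', n)`-arc, projective or not,
has `k' ≤ k`. -/
def IsMaximalArc {R : Type} [CommRing R] (K : Point R → ℕ) (k n : ℕ) : Prop :=
  IsArc K k n ∧ ∀ (K' : Point R → ℕ) (k' : ℕ), IsArc K' k' n → k' ≤ k

end Pool.Agent.W288.Hjelmslev
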