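import Mathlib

set_option autoImplicit false
set_option linter.unusedSectionVars false

namespace Pool.Agent.W288.Arc

open Finset

variable {F : Type} [Field F] [Fintype F] [DecidableEq F]

/-- dot product with `x` as an additive hom -/
def dotHom (x : Fin 3 → F) : (Fin 3 → F) →ₗ[F] F where
  toFun a := a ⬝ᵥ x
  map_add' a b := by simp [add_dotProduct]
  map_smul' c a := by simp

lemma dotHom_surj {x : Fin 3 → F} (hx : x ≠ 0) : Function.Surjective (dotHom x) := by
  intro c
  obtain ⟨i, hi⟩ : ∃ i, x i ≠ 0 := by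
    by_contra h
    push Not at h
    exact hx (funext h)
  refine ⟨Pi.single i (c / x i), ?_⟩
  simp [dotHom, hi]

lemma card_fiber_of_surj {A B : Type} [AddCommGroup A] [AddCommGroup B] [Fintype A] [Fintype B]
    [DecidableEq B] (f : A →+ B) (hf : Function.Surjective f) (b : B) :
    Fintype.card B * #{a : A | f a = b} = Fintype.card A := by
  have h1 : ∀ c : B, #{a : A | f a = c} = #{a : A | f a = b} := fun c =>
    AddMonoidHom.card_fiber_eq_of_mem_range f (hf c) (hf b)
  have h2 : ∑ c : B, #{a : A | f a = c} = Fintype.card A := by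
    have := Finset.card_eq_sum_card_fiberwise (s := (univ : Finset A)) (t := (univ : Finset B))
      (f := f) (by intro x _; simp)
    simpa using this.symm
  rw [← h2, Finset.sum_congr rfl (fun c _ => h1 c)]
  simp

lemma card1 {x : Fin 3 → F} (hx : x ≠ 0) (c : F) :
    #{a : Fin 3 → F | a ⬝ᵥ x = c} = Fintype.card F ^ 2 := by
  have h := card_fiber_of_surj (dotHom x).toAddMonoidHom (dotHom_surj hx) c
  have h3 : Fintype.card (Fin 3 → F) = Fintype.card F * Fintype.card F ^ 2 := by
    simp; ring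
  rw [h3] at h
  exact Nat.eq_of_mul_eq_mul_left Fintype.card_pos h

def dotHom2 (x y : Fin 3 → F) : (Fin 3 → F) →ₗ[F] F × F := (dotHom x).prod (dotHom y)

lemma dotHom2_surj {x y : Fin 3 → F} (hx : x ≠ 0) (hy : ∀ α : F, y ≠ α • x) :
    Function.Surjective (dotHom2 x y) := by
  rw [← LinearMap.range_eq_top]
  by_contra hne
  obtain ⟨f, hf, hle⟩ := Submodule.exists_le_ker_of_lt_top _ (lt_top_iff_ne_top.2 hne)
  have h1 : ∀ a : Fin 3 → F, a ⬝ᵥ (f (1, 0) • x + f (0, 1) • y) = 0 := by
    intro a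
    have h2 : f (dotHom2 x y a) = 0 := hle (LinearMap.mem_range_self _ a)
    have h3 : dotHom2 x y a = (a ⬝ᵥ x) • ((1, 0) : F × F) + (a ⬝ᵥ y) • ((0, 1) : F × F) := by
      simp [dotHom2, dotHom]
    rw [h3, map_add, map_smul, map_smul] at h2
    rw [dotProduct_add, dotProduct_smul, dotProduct_smul]
    simp only [smul_eq_mul] at h2 ⊢
    linear_combination h2
  have h4 : f (1, 0) • x + f (0, 1) • y = 0 := by
    funext i
    have := h1 (Pi.single i 1)
    simpa using this
  by_cases ht : f (0, 1) = 0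
  · rw [ht] at h4
    have hs : f (1, 0) = 0 := by
      by_contra hs
      apply hx
      have := congrArg (fun v => (f (1, 0))⁻¹ • v) h4
      simpa [smul_smul, hs] using this
    apply hf
    ext
    · simpa using hs
    · simpa using ht
  · apply hy (-(f (1, 0)) / f (0, 1))
    have := congrArg (fun v => (f (0, 1))⁻¹ • v) h4
    simp only [smul_add, smul_smul, inv_mul_cancel₀ ht, one_smul, smul_zero] at this
    have h5 : y = -(((f (0, 1))⁻¹ * f (1, 0)) • x) := by
      rw [eq_neg_iff_add_eq_zero, add_comm]; exact this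
    rw [h5, ← neg_smul]
    congr 1
    field_simp

lemma card2 {x y : Fin 3 → F} (hx : x ≠ 0) (hy : ∀ α : F, y ≠ α • x) (c d : F) :
    #{a : Fin 3 → F | a ⬝ᵥ x = c ∧ a ⬝ᵥ y = d} = Fintype.card F := by
  have h := card_fiber_of_surj (dotHom2 x y).toAddMonoidHom (dotHom2_surj hx hy) (c, d)
  have h3 : Fintype.card (Fin 3 → F) = Fintype.card (F × F) * Fintype.card F := by
    simp; ring
  rw [h3] at h
  have h4 := Nat.eq_of_mul_eq_mul_left Fintype.card_pos h
  rw [← h4]
  congr 1
  ext a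
  simp [dotHom2, dotHom, Prod.ext_iff]

/-- the multiplicity functions on vectors -/
structure Mult (k : (Fin 3 → F) → (Fin 3 → F) → ℕ) : Prop where
  zero : ∀ y, k 0 y = 0
  inv : ∀ (α β : F), α ≠ 0 → ∀ x y, k (α • x) (α • y + β • x) = k x y

variable {k : (Fin 3 → F) → (Fin 3 → F) → ℕ}

/-- weight of a line -/
def S (k : (Fin 3 → F) → (Fin 3 → F) → ℕ) (a b : Fin 3 → F) : ℕ :=
  ∑ z, ∑ y, if a ⬝ᵥ z = 0 ∧ a ⬝ᵥ y + b ⬝ᵥ z = 0 then k z y else 0

def u (k : (Fin 3 → F) → (Fin 3 → F) → ℕ) (x : Fin 3 → F) : ℕ := ∑ y, k x y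

def seg (k : (Fin 3 → F) → (Fin 3 → F) → ℕ) (a x : Fin 3 → F) (c : F) : ℕ :=
  ∑ y, if a ⬝ᵥ y = c then k x y else 0

lemma sum_seg (a x : Fin 3 → F) : ∑ c, seg k a x c = u k x := by
  unfold seg u
  rw [Finset.sum_comm]
  refine Finset.sum_congr rfl fun y _ => ?_
  simp

lemma dvd_seg (hk : Mult k) {a x : Fin 3 → F} (hx : x ≠ 0) (hax : a ⬝ᵥ x = 0) (c : F) :
    Fintype.card F ∣ seg k a x c := by
  obtain ⟨i, hi⟩ : ∃ i, x i ≠ 0 := by
    by_contra h
    push Not at h
    exact hx (funext h)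
  set g : (Fin 3 → F) → ℕ := fun y => if a ⬝ᵥ y = c then k x y else 0 with hg
  have hg1 : ∀ (β : F) (y : Fin 3 → F), g (y + β • x) = g y := by
    intro β y
    simp only [hg]
    have h1 : a ⬝ᵥ (y + β • x) = a ⬝ᵥ y := by simp [dotProduct_add, hax]
    have h2 : k x (y + β • x) = k x y := by
      have := hk.inv 1 β one_ne_zero x y
      simpa using this
    rw [h1, h2]
  have h3 : ∀ β : F, ∑ y with y i = β, g y = ∑ y with y i = 0, g y := by
    intro β
    refine Finset.sum_nbij' (fun y => y + (-(β / x i)) • x) (fun y => y + (β / x i) • x) ?_ ?_ ?_ ?_ ?_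
    · intro y hy
      simp only [mem_filter, mem_univ, true_and] at hy ⊢
      simp [hy, hi]
    · intro y hy
      simp only [mem_filter, mem_univ, true_and] at hy ⊢
      simp [hy, hi]
    · intro y hy
      simp [neg_smul]
    · intro y hy
      simp [neg_smul]
    · intro y hy
      exact (hg1 _ _).symm
  have h4 : seg k a x c = ∑ β : F, ∑ y with y i = β, g y := by
    rw [Finset.sum_fiberwise]
    rfl
  rw [h4, Finset.sum_congr rfl (fun β _ => h3 β)]
  simp

lemma seg_scale (hk : Mult k) {a x : Fin 3 → F} (c : F) {α : F} (hα : α ≠ 0) :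
    seg k a (α • x) (α * c) = seg k a x c := by
  unfold seg
  symm
  refine Finset.sum_nbij' (fun y => α • y) (fun y => α⁻¹ • y) ?_ ?_ ?_ ?_ ?_
  · simp
  · simp
  · intro y _; simp [smul_smul, hα]
  · intro y _; simp [smul_smul, hα]
  · intro y _
    have h1 : (a ⬝ᵥ (α • y) = α * c) ↔ (a ⬝ᵥ y = c) := by
      simp [hα]
    have h2 : k (α • x) (α • y) = k x y := by
      have := hk.inv α 0 hα x y
      simpa using this
    simp only [h1, h2]

/-- first step: lines through a segment -/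
lemma step1 (hk : Mult k) {N : ℕ} (hS : ∀ a b, a ≠ 0 → S k a b ≤ N) {a x : Fin 3 → F}
    (ha : a ≠ 0) (hx : x ≠ 0) (hax : a ⬝ᵥ x = 0) (c : F) :
    Fintype.card F * (∑ z with (a ⬝ᵥ z = 0 ∧ ∀ α : F, z ≠ α • x), u k z) +
      (Fintype.card F - 1) * (Fintype.card F ^ 2 * seg k a x c) ≤ Fintype.card F ^ 2 * N := by
  classical
  set q := Fintype.card F with hq
  have h1 : ∑ b with b ⬝ᵥ x = -c, S k a b ≤ q ^ 2 * N := by
    calc ∑ b with b ⬝ᵥ x = -c, S k a b ≤ ∑ b with b ⬝ᵥ x = -c, N :=
          Finset.sum_le_sum fun b _ => hS a b ha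
      _ = q ^ 2 * N := by rw [Finset.sum_const, card1 hx, smul_eq_mul]
  refine le_trans ?_ h1
  have h2 : ∑ b with b ⬝ᵥ x = -c, S k a b =
      ∑ z, ∑ y, (if a ⬝ᵥ z = 0 then k z y * #{b : Fin 3 → F | b ⬝ᵥ x = -c ∧ b ⬝ᵥ z = -(a ⬝ᵥ y)}
        else 0) := by
    unfold S
    rw [Finset.sum_comm]
    refine Finset.sum_congr rfl fun z _ => ?_
    rw [Finset.sum_comm]
    refine Finset.sum_congr rfl fun y _ => ?_
    by_cases hz : a ⬝ᵥ z = 0
    · simp only [hz, true_and, if_true]
      rw [← Finset.sum_filter, Finset.sum_const, smul_eq_mul, mul_comm]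
      congr 2
      ext b
      simp only [mem_filter, mem_univ, true_and]
      constructor
      · rintro ⟨h3, h4⟩
        exact ⟨h3, by linear_combination h4⟩
      · rintro ⟨h3, h4⟩
        exact ⟨h3, by linear_combination h4⟩
    · simp [hz]
  rw [h2]
  -- the two parts of the sum over z
  set A : Finset (Fin 3 → F) := {z | a ⬝ᵥ z = 0 ∧ ∀ α : F, z ≠ α • x} with hA
  set B : Finset (Fin 3 → F) := (univ.filter (fun α : F => α ≠ 0)).image (fun α => α • x) with hB
  have hinj : Function.Injective (fun α : F => α • x) := by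
    intro α β h
    exact smul_left_injective F hx h
  have hdisj : Disjoint A B := by
    rw [Finset.disjoint_left]
    intro z hz hz'
    simp only [hA, hB, mem_filter, mem_univ, true_and, mem_image] at hz hz'
    obtain ⟨α, _, h⟩ := hz'
    exact hz.2 α h.symm
  have h5 : ∑ z ∈ A ∪ B, ∑ y, (if a ⬝ᵥ z = 0 then
      k z y * #{b : Fin 3 → F | b ⬝ᵥ x = -c ∧ b ⬝ᵥ z = -(a ⬝ᵥ y)} else 0) ≤
      ∑ z, ∑ y, (if a ⬝ᵥ z = 0 then
        k z y * #{b : Fin 3 → F | b ⬝ᵥ x = -c ∧ b ⬝ᵥ z = -(a ⬝ᵥ y)} else 0) :=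
    Finset.sum_le_sum_of_subset (Finset.subset_univ _)
  refine le_trans ?_ h5
  rw [Finset.sum_union hdisj]
  refine Nat.add_le_add (le_of_eq ?_) (le_of_eq ?_)
  · rw [Finset.mul_sum]
    refine Finset.sum_congr rfl fun z hz => ?_
    simp only [hA, mem_filter, mem_univ, true_and] at hz
    unfold u
    rw [Finset.mul_sum]
    refine Finset.sum_congr rfl fun y _ => ?_
    rw [if_pos hz.1, card2 hx hz.2, mul_comm]
  · rw [Finset.sum_image (fun α _ β _ h => hinj h)]
    have h6 : ∀ α ∈ univ.filter (fun α : F => α ≠ 0), (∑ y, (if a ⬝ᵥ (α • x) = 0 then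
        k (α • x) y * #{b : Fin 3 → F | b ⬝ᵥ x = -c ∧ b ⬝ᵥ (α • x) = -(a ⬝ᵥ y)} else 0)) =
        q ^ 2 * seg k a x c := by
      intro α hα
      simp only [mem_filter, mem_univ, true_and] at hα
      rw [← seg_scale hk c hα]
      unfold seg
      rw [Finset.mul_sum]
      refine Finset.sum_congr rfl fun y _ => ?_
      rw [if_pos (by simp [hax])]
      by_cases hy : a ⬝ᵥ y = α * c
      · rw [if_pos hy, mul_comm]
        congr 1
        rw [← card1 hx (-c)]
        congr 1
        ext b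
        simp only [mem_filter, mem_univ, true_and, and_iff_left_iff_imp]
        intro hb
        rw [dotProduct_smul, hb, hy]
        simp
      · rw [if_neg hy, mul_zero]
        rw [Nat.mul_eq_zero]
        right
        rw [Finset.card_eq_zero]
        ext b
        simp only [mem_filter, mem_univ, true_and, notMem_empty, iff_false, not_and]
        intro hb h7
        apply hy
        rw [dotProduct_smul, hb] at h7
        simp only [smul_eq_mul] at h7
        linear_combination h7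
    rw [Finset.sum_congr rfl h6, Finset.sum_const, smul_eq_mul]
    congr 1
    rw [Finset.filter_ne' univ (0 : F), Finset.card_erase_of_mem (mem_univ _), Finset.card_univ]

lemma total_split (hk : Mult k) {x : Fin 3 → F} (hx : x ≠ 0) :
    ∑ z, u k z = (∑ z with (∀ α : F, z ≠ α • x), u k z) + (Fintype.card F - 1) * u k x := by
  classical
  have hinj : Function.Injective (fun α : F => α • x) := by
    intro α β h
    exact smul_left_injective F hx h
  have h1 : ∑ z with ¬ (∀ α : F, z ≠ α • x), u k z = ∑ α : F, u k (α • x) := by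
    rw [← Finset.sum_image (f := u k) (g := fun α : F => α • x) (s := univ)
      (fun α _ β _ h => hinj h)]
    congr 1
    ext z
    simp only [ne_eq, not_forall, not_not, mem_filter, mem_univ, true_and, mem_image]
    constructor
    · rintro ⟨α, h⟩; exact ⟨α, h.symm⟩
    · rintro ⟨α, h⟩; exact ⟨α, h.symm⟩
  rw [← Finset.sum_filter_add_sum_filter_not univ (fun z => ∀ α : F, z ≠ α • x) (u k), h1]
  congr 1
  rw [← Finset.sum_erase_add _ _ (mem_univ (0 : F))]
  have h2 : u k ((0 : F) • x) = 0 := by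
    rw [zero_smul]
    unfold u
    exact Finset.sum_eq_zero fun y _ => hk.zero y
  rw [h2, add_zero]
  have h3 : ∀ α ∈ univ.erase (0 : F), u k (α • x) = u k x := by
    intro α hα
    have hα' : α ≠ 0 := (mem_erase.1 hα).1
    unfold u
    symm
    refine Finset.sum_nbij' (fun y => α • y) (fun y => α⁻¹ • y) ?_ ?_ ?_ ?_ ?_
    · simp
    · simp
    · intro y _; simp [smul_smul, hα']
    · intro y _; simp [smul_smul, hα']
    · intro y _
      have := hk.inv α 0 hα' x y
      simpa using this.symm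
  rw [Finset.sum_congr rfl h3, Finset.sum_const, smul_eq_mul, Finset.card_erase_of_mem (mem_univ _),
    Finset.card_univ]

/-- second step: sum over all directions. -/
lemma step2 (hk : Mult k) {n : ℕ}
    (hS : ∀ a b, a ≠ 0 → S k a b ≤ (Fintype.card F ^ 2 - Fintype.card F) * n) {x : Fin 3 → F}
    (hx : x ≠ 0) (w : ℕ) (hw : ∀ a : Fin 3 → F, a ≠ 0 → a ⬝ᵥ x = 0 → ∃ c, w ≤ seg k a x c) :
    (∑ z, u k z) + Fintype.card F * (Fintype.card F ^ 2 - 1) * w ≤
      (Fintype.card F - 1) * u k x +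
        (Fintype.card F ^ 2 - 1) * (Fintype.card F ^ 2 * n) := by
  classical
  set q := Fintype.card F with hq
  have hq2 : 2 ≤ q := Fintype.one_lt_card
  obtain ⟨Q, hQ⟩ : ∃ Q, q = Q + 1 := ⟨q - 1, by omega⟩
  set D : Finset (Fin 3 → F) := {a | a ≠ 0 ∧ a ⬝ᵥ x = 0} with hD
  have hDcard : #D = q ^ 2 - 1 := by
    have h1 : D = ({a : Fin 3 → F | a ⬝ᵥ x = 0} : Finset _).erase 0 := by
      ext a; simp [hD, and_comm]
    rw [h1, Finset.card_erase_of_mem (by simp), card1 hx]
  have h1 : ∀ a ∈ D, q * (∑ z with (a ⬝ᵥ z = 0 ∧ ∀ α : F, z ≠ α • x), u k z) +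
      (q - 1) * (q ^ 2 * w) ≤ q ^ 2 * ((q ^ 2 - q) * n) := by
    intro a ha
    simp only [hD, mem_filter, mem_univ, true_and] at ha
    obtain ⟨c, hc⟩ := hw a ha.1 ha.2
    refine le_trans ?_ (step1 hk hS ha.1 hx ha.2 c)
    gcongr
  have h2 := Finset.sum_le_sum h1
  rw [Finset.sum_add_distrib, Finset.sum_const, Finset.sum_const, hDcard, ← Finset.mul_sum] at h2
  have h3 : ∑ a ∈ D, ∑ z with (a ⬝ᵥ z = 0 ∧ ∀ α : F, z ≠ α • x), u k z =
      (q - 1) * ∑ z with (∀ α : F, z ≠ α • x), u k z := by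
    have h4 : ∀ a ∈ D, ∑ z with (a ⬝ᵥ z = 0 ∧ ∀ α : F, z ≠ α • x), u k z =
        ∑ z with (∀ α : F, z ≠ α • x), if a ⬝ᵥ z = 0 then u k z else 0 := by
      intro a _
      rw [← Finset.sum_filter, Finset.filter_filter]
      congr 1
      ext z
      simp [and_comm]
    rw [Finset.sum_congr rfl h4, Finset.sum_comm, Finset.mul_sum]
    refine Finset.sum_congr rfl fun z hz => ?_
    simp only [mem_filter, mem_univ, true_and] at hz
    rw [← Finset.sum_filter, Finset.sum_const, smul_eq_mul]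
    congr 1
    have h5 : D.filter (fun a => a ⬝ᵥ z = 0) =
        ({a : Fin 3 → F | a ⬝ᵥ x = 0 ∧ a ⬝ᵥ z = 0} : Finset _).erase 0 := by
      ext a; simp only [hD, mem_filter, mem_univ, true_and, mem_erase]; tauto
    rw [h5, Finset.card_erase_of_mem (by simp), card2 hx hz]
  rw [h3] at h2
  have h4 := total_split hk hx (k := k)
  rw [← hq] at h4
  simp only [smul_eq_mul] at h2
  set A := ∑ z with (∀ α : F, z ≠ α • x), u k z with hAdef
  rw [h4]
  -- arithmetic: divide by q (q - 1)
  have h6 : q * (q - 1) * (A + q * (q ^ 2 - 1) * w) ≤ q * (q - 1) * ((q ^ 2 - 1) * (q ^ 2 * n)) := by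
    have e1 : q ^ 2 - q = q * (q - 1) := by
      rw [Nat.mul_sub, mul_one, sq]
    rw [e1] at h2
    calc q * (q - 1) * (A + q * (q ^ 2 - 1) * w)
        = q * ((q - 1) * A) + (q ^ 2 - 1) * ((q - 1) * (q ^ 2 * w)) := by ring
      _ ≤ (q ^ 2 - 1) * (q ^ 2 * (q * (q - 1) * n)) := h2
      _ = q * (q - 1) * ((q ^ 2 - 1) * (q ^ 2 * n)) := by ring
  have h7 : 0 < q * (q - 1) := Nat.mul_pos (by omega) (by omega)
  have h8 := Nat.le_of_mul_le_mul_left h6 h7
  omega

/-- The upper bound for all arcs, in terms of sums over vectors. -/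
theorem upper (hk : Mult k) {n : ℕ} (hn : Fintype.card F ^ 2 ≤ n)
    (hS : ∀ a b, a ≠ 0 → S k a b ≤ (Fintype.card F ^ 2 - Fintype.card F) * n) :
    (∑ z, u k z) + Fintype.card F ^ 3 * (Fintype.card F ^ 2 - Fintype.card F) ≤
      (Fintype.card F ^ 2 - 1) * (Fintype.card F ^ 2 * n) := by
  classical
  set q := Fintype.card F with hq
  have hq2 : 2 ≤ q := Fintype.one_lt_card
  obtain ⟨Q, hQ⟩ : ∃ Q, q = Q + 2 := ⟨q - 2, by omega⟩
  have e1 : q ^ 2 - q = q * (q - 1) := by rw [Nat.mul_sub, mul_one, sq]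
  by_cases hall : ∀ x, u k x ≤ q * (q ^ 2 - q)
  · have h1 : ∑ z, u k z ≤ (q ^ 3 - 1) * (q * (q ^ 2 - q)) := by
      rw [← Finset.sum_erase_add _ _ (mem_univ (0 : Fin 3 → F))]
      have h2 : u k 0 = 0 := Finset.sum_eq_zero fun y _ => hk.zero y
      rw [h2, add_zero]
      calc ∑ z ∈ univ.erase 0, u k z ≤ ∑ z ∈ (univ : Finset (Fin 3 → F)).erase 0, q * (q ^ 2 - q) :=
            Finset.sum_le_sum fun z _ => hall z
        _ = _ := by
            rw [Finset.sum_const, Finset.card_erase_of_mem (mem_univ _), Finset.card_univ]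
            simp [hq]
    have h3 : (q ^ 2 - 1) * (q ^ 2 * q ^ 2) ≤ (q ^ 2 - 1) * (q ^ 2 * n) := by gcongr
    refine le_trans (Nat.add_le_add_right h1 _) (le_trans ?_ h3)
    zify [show 1 ≤ q ^ 3 from Nat.one_le_pow _ _ (by omega), show 1 ≤ q ^ 2 from Nat.one_le_pow _ _ (by omega), show q ≤ q ^ 2 from Nat.le_self_pow (by norm_num) q]
    have hq' : (2 : ℤ) ≤ q := by exact_mod_cast hq2
    nlinarith [mul_nonneg (show (0 : ℤ) ≤ (q : ℤ) ^ 2 by positivity) (show (0 : ℤ) ≤ (q : ℤ) - 1 by linarith)]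
  · push Not at hall
    obtain ⟨x, hx⟩ := hall
    have hx0 : x ≠ 0 := by
      rintro rfl
      have h2 : u k 0 = 0 := Finset.sum_eq_zero fun y _ => hk.zero y
      omega
    by_cases hbig : q ^ 3 ≤ u k x
    · -- case A
      -- choose w = ⌈u / q⌉
      have h1 : ∀ a : Fin 3 → F, a ≠ 0 → a ⬝ᵥ x = 0 → ∃ c, (u k x + (q - 1)) / q ≤ seg k a x c := by
        intro a _ _
        by_contra hcon
        push Not at hcon
        have h2 : ∑ c, seg k a x c ≤ ∑ c : F, ((u k x + (q - 1)) / q - 1) :=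
          Finset.sum_le_sum fun c _ => by have := hcon c; omega
        rw [sum_seg, Finset.sum_const, Finset.card_univ, smul_eq_mul, ← hq] at h2
        have h3 : q * ((u k x + (q - 1)) / q) ≤ u k x + (q - 1) := Nat.mul_div_le _ _
        have h4 : 0 < (u k x + (q - 1)) / q := by
          have := hcon 0
          omega
        obtain ⟨m, hm⟩ : ∃ m, (u k x + (q - 1)) / q = m + 1 := ⟨(u k x + (q - 1)) / q - 1, by omega⟩
        rw [hm] at h2 h3
        rw [Nat.mul_add] at h3
        simp only [Nat.add_sub_cancel] at h2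
        omega
      have h2 := step2 hk hS hx0 _ h1
      rw [← hq] at h2
      have h3 : u k x ≤ q * ((u k x + (q - 1)) / q) := by
        have := Nat.lt_div_mul_add (a := u k x + (q - 1)) (b := q) (by omega)
        have h5 : (u k x + (q - 1)) / q * q = q * ((u k x + (q - 1)) / q) := mul_comm _ _
        omega
      set w := (u k x + (q - 1)) / q with hw
      have h4 : (q ^ 2 - 1) * u k x ≤ q * (q ^ 2 - 1) * w := by
        calc (q ^ 2 - 1) * u k x ≤ (q ^ 2 - 1) * (q * w) := by gcongr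
          _ = _ := by ring
      have h5 : (q ^ 2 - 1) * u k x = (q - 1) * u k x + (q ^ 2 - q) * u k x := by
        rw [← Nat.add_mul]
        congr 1
        have : q ≤ q ^ 2 := Nat.le_self_pow (by norm_num) q
        omega
      have h6 : q ^ 3 * (q ^ 2 - q) ≤ (q ^ 2 - q) * u k x := by
        rw [mul_comm]
        gcongr
      omega
    · push Not at hbig
      have h1 : ∀ a : Fin 3 → F, a ≠ 0 → a ⬝ᵥ x = 0 → ∃ c, q ^ 2 ≤ seg k a x c := by
        intro a _ hax
        by_contra hcon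
        push Not at hcon
        have h2 : ∑ c, seg k a x c ≤ ∑ c : F, (q ^ 2 - q) := by
          refine Finset.sum_le_sum fun c _ => ?_
          obtain ⟨m, hm⟩ := dvd_seg hk hx0 hax c
          rw [← hq] at hm
          have h3 := hcon c
          rw [hm] at h3 ⊢
          rw [sq] at h3
          have h4 : m < q := lt_of_mul_lt_mul_left h3 (Nat.zero_le _)
          rw [e1]
          exact Nat.mul_le_mul_left _ (by omega)
        rw [sum_seg, Finset.sum_const, Finset.card_univ, smul_eq_mul, ← hq] at h2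
        omega
      have h2 := step2 hk hS hx0 _ h1
      rw [← hq] at h2
      have h3 : (q - 1) * u k x ≤ (q - 1) * q ^ 3 := by gcongr
      have h5 : q * (q ^ 2 - 1) * q ^ 2 = (q - 1) * q ^ 3 + q ^ 3 * (q ^ 2 - q) := by
        have h6 : q ^ 2 - 1 = (q - 1) + (q ^ 2 - q) := by
          have : q ≤ q ^ 2 := Nat.le_self_pow (by norm_num) q
          omega
        rw [h6]
        ring
      omega

end Pool.Agent.W288.Arc
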