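import Pool.Agent.W288.Arc1
import Pool.Agent.W288.ArcDefs

set_option autoImplicit false
set_option linter.unusedSectionVars false

namespace Pool.Agent.W288.Arc

open Finset TrivSqZeroExt DualNumber

open Pool.Agent.W288.Hjelmslev (Point Line)

variable {F : Type} [Field F] [Fintype F] [DecidableEq F]

/-- the vector `x + ε y` -/
def mk (x y : Fin 3 → F) : Fin 3 → F[ε] := fun i => inl (x i) + inr (y i)

@[simp] lemma fst_mk (x y : Fin 3 → F) (i : Fin 3) : fst (mk x y i) = x i := by simp [mk]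
@[simp] lemma snd_mk (x y : Fin 3 → F) (i : Fin 3) : snd (mk x y i) = y i := by simp [mk]

lemma eq_mk (v : Fin 3 → F[ε]) : v = mk (fun i => fst (v i)) (fun i => snd (v i)) := by
  funext i
  ext <;> simp

lemma smul_mk (r : F[ε]) (x y : Fin 3 → F) :
    r • mk x y = mk (fst r • x) (fst r • y + snd r • x) := by
  funext i
  ext
  · simp
  · simp [mul_comm]

lemma smul_eq_zero_of_mk {r : F[ε]} {x y : Fin 3 → F} (hx : x ≠ 0) (h : r • mk x y = 0) :
    r = 0 := by
  obtain ⟨i, hi⟩ : ∃ i, x i ≠ 0 := by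
    by_contra h
    push Not at h
    exact hx (funext h)
  have h1 := congrFun h i
  rw [smul_mk] at h1
  have h2 := congrArg fst h1
  have h3 := congrArg snd h1
  simp at h2 h3
  have h4 : fst r = 0 := by tauto
  rw [h4] at h3
  ext
  · exact h4
  · simp at h3; simp; tauto

lemma basis_span {x : Fin 3 → F} (y : Fin 3 → F) (hx : x ≠ 0) :
    Nonempty (Module.Basis (Fin 1) F[ε] (Submodule.span F[ε] {mk x y})) := by
  have h1 : LinearIndependent F[ε] (fun _ : Fin 1 => mk x y) := by
    rw [Fintype.linearIndependent_iff]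
    intro g hg i
    rw [Fin.sum_univ_one] at hg
    have := smul_eq_zero_of_mk hx hg
    rwa [Subsingleton.elim i 0]
  have h2 := Module.Basis.span h1
  rw [Set.range_const] at h2
  exact ⟨h2⟩

def pt (x y : Fin 3 → F) (hx : x ≠ 0) : Point F[ε] :=
  ⟨Submodule.span F[ε] {mk x y}, basis_span y hx⟩

lemma exists_pt (P : Point F[ε]) : ∃ x y, ∃ hx : x ≠ 0, P = pt x y hx := by
  obtain ⟨P, ⟨b⟩⟩ := P
  set v : Fin 3 → F[ε] := (b 0).1 with hv
  refine ⟨fun i => fst (v i), fun i => snd (v i), ?_, ?_⟩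
  · intro h
    have h1 : (ε : F[ε]) • b 0 = 0 := by
      apply Subtype.ext
      change (ε : F[ε]) • v = 0
      rw [eq_mk v, smul_mk, h]
      funext i
      ext <;> simp
    have h2 := b.linearIndependent
    rw [Fintype.linearIndependent_iff] at h2
    have h3 := h2 (fun _ => ε) (by simpa using h1) 0
    have h4 := congrArg snd h3
    simp at h4
  · apply Subtype.ext
    change P = Submodule.span F[ε] {mk _ _}
    rw [← eq_mk]
    apply le_antisymm
    · intro w hw
      have h1 := b.sum_repr ⟨w, hw⟩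
      rw [Submodule.mem_span_singleton]
      refine ⟨b.repr ⟨w, hw⟩ 0, ?_⟩
      have h2 := congrArg Subtype.val h1
      simpa using h2
    · rw [Submodule.span_singleton_le_iff_mem]
      exact (b 0).2

lemma pt_eq_iff {x y x' y' : Fin 3 → F} {hx : x ≠ 0} {hx' : x' ≠ 0} :
    pt x' y' hx' = pt x y hx ↔ ∃ α β : F, α ≠ 0 ∧ x' = α • x ∧ y' = α • y + β • x := by
  constructor
  · intro h
    have h1 := congrArg Subtype.val h
    change Submodule.span F[ε] {mk x' y'} = Submodule.span F[ε] {mk x y} at h1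
    have h2 : mk x' y' ∈ Submodule.span F[ε] {mk x y} := by
      rw [← h1]; exact Submodule.mem_span_singleton_self _
    obtain ⟨r, hr⟩ := Submodule.mem_span_singleton.1 h2
    rw [smul_mk] at hr
    have e1 : x' = fst r • x := by
      funext i
      have := congrArg fst (congrFun hr i)
      simpa using this.symm
    have e2 : y' = fst r • y + snd r • x := by
      funext i
      have := congrArg snd (congrFun hr i)
      simpa using this.symm
    refine ⟨fst r, snd r, ?_, e1, e2⟩
    intro h0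
    rw [h0, zero_smul] at e1
    exact hx' e1
  · rintro ⟨α, β, hα, rfl, rfl⟩
    apply Subtype.ext
    change Submodule.span F[ε] {mk _ _} = Submodule.span F[ε] {mk x y}
    have h1 : mk (α • x) (α • y + β • x) = (inl α + inr β : F[ε]) • mk x y := by
      rw [smul_mk]; simp
    rw [h1]
    have h2 : IsUnit (inl α + inr β : F[ε]) := by
      rw [TrivSqZeroExt.isUnit_iff_isUnit_fst]
      simpa using hα
    obtain ⟨r, hr⟩ := h2
    rw [← hr]
    exact Submodule.span_singleton_group_smul_eq F[ε] r (mk x y)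

noncomputable instance : Finite F[ε] := inferInstanceAs (Finite (F × F))

instance (R : Type) [CommRing R] [Finite R] : Finite (Point R) := by
  unfold Point; infer_instance

noncomputable instance : Fintype (Point F[ε]) := Fintype.ofFinite _

noncomputable instance : DecidableEq (Point F[ε]) := Classical.decEq _

/-- the multiplicity as a function of vectors. -/
noncomputable def km (g : Point F[ε] → ℕ) (x y : Fin 3 → F) : ℕ :=
  if h : x ≠ 0 then g (pt x y h) else 0

lemma km_mult (g : Point F[ε] → ℕ) : Mult (km g) where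
  zero y := by simp [km]
  inv α β hα x y := by
    unfold km
    by_cases hx : x ≠ 0
    · have hx' : α • x ≠ 0 := by
        intro h; rcases smul_eq_zero.1 h with h | h
        · exact hα h
        · exact hx h
      rw [dif_pos hx, dif_pos hx']
      congr 1
      exact pt_eq_iff.2 ⟨α, β, hα, rfl, rfl⟩
    · push Not at hx
      subst hx
      simp

lemma card_fiber (P : Point F[ε]) :
    #{v : (Fin 3 → F) × (Fin 3 → F) | ∃ h : v.1 ≠ 0, pt v.1 v.2 h = P} =
      Fintype.card F ^ 2 - Fintype.card F := by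
  classical
  obtain ⟨x, y, hx, rfl⟩ := exists_pt P
  have h1 : ({v : (Fin 3 → F) × (Fin 3 → F) | ∃ h : v.1 ≠ 0, pt v.1 v.2 h = pt x y hx} : Finset _) =
      ((univ.erase (0 : F)) ×ˢ (univ : Finset F)).image
        (fun r => (r.1 • x, r.1 • y + r.2 • x)) := by
    ext ⟨x', y'⟩
    simp only [mem_filter, mem_univ, true_and, mem_image, mem_product, mem_erase, and_true,
      Prod.exists, Prod.mk.injEq]
    constructor
    · rintro ⟨h, hP⟩
      obtain ⟨α, β, hα, h1, h2⟩ := pt_eq_iff.1 hP
      exact ⟨α, β, hα, h1.symm, h2.symm⟩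
    · rintro ⟨α, β, hα, h1, h2⟩
      have hx' : x' ≠ 0 := by
        rw [← h1]
        intro h; rcases smul_eq_zero.1 h with h | h
        · exact hα h
        · exact hx h
      exact ⟨hx', pt_eq_iff.2 ⟨α, β, hα, h1.symm, h2.symm⟩⟩
  rw [h1, Finset.card_image_of_injective, Finset.card_product, Finset.card_erase_of_mem (mem_univ _),
    Finset.card_univ, Nat.sub_mul, one_mul, sq]
  rintro ⟨α, β⟩ ⟨α', β'⟩ h
  simp only [Prod.mk.injEq] at h
  obtain ⟨h2, h3⟩ := h
  have e1 : α = α' := smul_left_injective F hx h2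
  subst e1
  have e2 : β • x = β' • x := add_left_cancel h3
  have e3 : β = β' := smul_left_injective F hx e2
  rw [e3]

lemma sum_km (g : Point F[ε] → ℕ) :
    ∑ z, u (km g) z = (Fintype.card F ^ 2 - Fintype.card F) * ∑ P, g P := by
  classical
  have h1 : ∑ z, u (km g) z = ∑ v : (Fin 3 → F) × (Fin 3 → F), km g v.1 v.2 := by
    rw [Fintype.sum_prod_type]
    rfl
  rw [h1]
  have h2 : ∀ v : (Fin 3 → F) × (Fin 3 → F), km g v.1 v.2 =
      ∑ P, if ∃ h : v.1 ≠ 0, pt v.1 v.2 h = P then g P else 0 := by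
    intro v
    unfold km
    by_cases h : v.1 ≠ 0
    · rw [dif_pos h, Finset.sum_eq_single (pt v.1 v.2 h)]
      · rw [if_pos ⟨h, rfl⟩]
      · intro P _ hP
        rw [if_neg]
        rintro ⟨_, h3⟩
        exact hP h3.symm
      · simp
    · rw [dif_neg h]
      symm
      apply Finset.sum_eq_zero
      intro P _
      rw [if_neg]
      rintro ⟨h3, _⟩
      exact h h3
  rw [Finset.sum_congr rfl (fun v _ => h2 v), Finset.sum_comm, Finset.mul_sum]
  refine Finset.sum_congr rfl fun P _ => ?_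
  rw [← Finset.sum_filter, Finset.sum_const, card_fiber, smul_eq_mul]

/-- the submodule of all `v` with `c · v = 0` -/
def lineSub {R : Type} [CommRing R] (c : Fin 3 → R) : Submodule R (Fin 3 → R) where
  carrier := {v | c ⬝ᵥ v = 0}
  add_mem' {a b} ha hb := by
    simp only [Set.mem_ofPred_eq] at *
    rw [dotProduct_add, ha, hb, add_zero]
  zero_mem' := by simp
  smul_mem' r v hv := by
    simp only [Set.mem_ofPred_eq] at *
    rw [dotProduct_smul, hv, smul_zero]

lemma mem_lineSub {R : Type} [CommRing R] {c v : Fin 3 → R} : v ∈ lineSub c ↔ c ⬝ᵥ v = 0 := Iff.rfl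

lemma basis_lineSub {R : Type} [CommRing R] {c : Fin 3 → R} {i : Fin 3} (hi : IsUnit (c i)) :
    Nonempty (Module.Basis (Fin 2) R (lineSub c)) := by
  classical
  let f : lineSub c →ₗ[R] ({j : Fin 3 // j ≠ i} → R) :=
    { toFun := fun v j => v.1 j.1
      map_add' := fun _ _ => rfl
      map_smul' := fun _ _ => rfl }
  have hsum : ∀ v : Fin 3 → R, c ⬝ᵥ v = c i * v i + ∑ j : {j : Fin 3 // j ≠ i}, c j.1 * v j.1 := by
    intro v
    unfold dotProduct
    rw [← Finset.add_sum_erase _ _ (mem_univ i)]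
    congr 1
    exact Finset.sum_subtype _ (by simp) _
  have hinj : Function.Injective f := by
    rw [← LinearMap.ker_eq_bot, LinearMap.ker_eq_bot']
    intro v hv
    have h1 : ∀ j, j ≠ i → v.1 j = 0 := fun j hj => congrFun hv ⟨j, hj⟩
    have h2 : c ⬝ᵥ v.1 = 0 := v.2
    rw [hsum] at h2
    have h3 : ∑ j : {j : Fin 3 // j ≠ i}, c j.1 * v.1 j.1 = 0 :=
      Finset.sum_eq_zero fun j _ => by rw [h1 j.1 j.2, mul_zero]
    rw [h3, add_zero] at h2
    apply Subtype.ext
    funext j
    by_cases hj : j = i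
    · subst hj
      exact (hi.mul_right_eq_zero).1 h2
    · exact h1 j hj
  have hsurj : Function.Surjective f := by
    intro w
    obtain ⟨d, hd⟩ := hi.exists_right_inv
    set s : R := ∑ j : {j : Fin 3 // j ≠ i}, c j.1 * w j with hs
    let v : Fin 3 → R := fun j => if h : j = i then -(d * s) else w ⟨j, h⟩
    have hv1 : ∀ j : {j : Fin 3 // j ≠ i}, v j.1 = w j := by
      intro j
      simp only [v, dif_neg j.2]
    have hv : v ∈ lineSub c := by
      rw [mem_lineSub, hsum]
      have : ∑ j : {j : Fin 3 // j ≠ i}, c j.1 * v j.1 = s :=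
        Finset.sum_congr rfl fun j _ => by rw [hv1 j]
      rw [this]
      simp only [v, dif_pos]
      linear_combination (-s) * hd
    refine ⟨⟨v, hv⟩, ?_⟩
    funext j
    exact hv1 j
  let e := LinearEquiv.ofBijective f ⟨hinj, hsurj⟩
  have hc : Fintype.card {j : Fin 3 // j ≠ i} = Fintype.card (Fin 2) := by
    rw [Fintype.card_subtype_compl]
    simp
  exact ⟨(Module.Basis.ofEquivFun e).reindex (Fintype.equivOfCardEq hc)⟩

lemma isUnit_of_ne {a b : Fin 3 → F} (ha : a ≠ 0) : ∃ i, IsUnit (mk a b i) := by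
  obtain ⟨i, hi⟩ : ∃ i, a i ≠ 0 := by
    by_contra h
    push Not at h
    exact ha (funext h)
  refine ⟨i, ?_⟩
  rw [TrivSqZeroExt.isUnit_iff_isUnit_fst]
  simpa using hi

def ln (a b : Fin 3 → F) (ha : a ≠ 0) : Line F[ε] :=
  ⟨lineSub (mk a b), (isUnit_of_ne ha).elim fun _ hi => basis_lineSub hi⟩

lemma dot_mk (a b x y : Fin 3 → F) :
    mk a b ⬝ᵥ mk x y = 0 ↔ a ⬝ᵥ x = 0 ∧ a ⬝ᵥ y + b ⬝ᵥ x = 0 := by
  have h1 : fst (mk a b ⬝ᵥ mk x y) = a ⬝ᵥ x := by
    simp [dotProduct, Fin.sum_univ_three]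
  have h2 : snd (mk a b ⬝ᵥ mk x y) = a ⬝ᵥ y + b ⬝ᵥ x := by
    simp [dotProduct, Fin.sum_univ_three]
    ring
  rw [TrivSqZeroExt.ext_iff, h1, h2]
  simp

lemma exists_ln (L : Line F[ε]) : ∃ a b, ∃ ha : a ≠ 0, L = ln a b ha := by
  classical
  obtain ⟨L, ⟨b⟩⟩ := L
  set v : Fin 3 → F[ε] := (b 0).1 with hv
  set w : Fin 3 → F[ε] := (b 1).1 with hw
  have hli := b.linearIndependent
  rw [Fintype.linearIndependent_iff] at hli
  have hspan : ∀ z ∈ L, ∃ r s : F[ε], z = r • v + s • w := by
    intro z hz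
    have h1 := b.sum_repr ⟨z, hz⟩
    refine ⟨b.repr ⟨z, hz⟩ 0, b.repr ⟨z, hz⟩ 1, ?_⟩
    have h2 := congrArg Subtype.val h1
    rw [Fin.sum_univ_two] at h2
    exact h2.symm
  have hv' := eq_mk v
  have hw' := eq_mk w
  set x := (fun i => fst (v i)) with hx
  set y := (fun i => snd (v i)) with hy
  set x' := (fun i => fst (w i)) with hx'
  set y' := (fun i => snd (w i)) with hy'
  have hind : LinearIndependent F ![x, x'] := by
    rw [LinearIndependent.pair_iff]
    intro s t hst
    have h1 : (inr s : F[ε]) • b 0 + (inr t : F[ε]) • b 1 = 0 := by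
      apply Subtype.ext
      change (inr s : F[ε]) • v + (inr t : F[ε]) • w = 0
      rw [hv', hw', smul_mk, smul_mk]
      funext i
      have h2 := congrFun hst i
      ext
      · simp
      · simpa using h2
    have h3 := hli ![inr s, inr t] (by rw [Fin.sum_univ_two]; simpa using h1)
    have h4 := congrArg snd (h3 0)
    have h5 := congrArg snd (h3 1)
    exact ⟨by simpa using h4, by simpa using h5⟩
  have hcr := crossProduct_ne_zero_iff_linearIndependent.2 hind
  set c := crossProduct v w with hc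
  have hcf : (fun i => fst (c i)) = crossProduct x x' := by
    rw [hc, cross_apply, cross_apply]
    funext i
    fin_cases i <;> simp [hx, hx']
  have hcf' : (fun i => fst (c i)) ≠ 0 := by rw [hcf]; exact hcr
  refine ⟨fun i => fst (c i), fun i => snd (c i), hcf', ?_⟩
  apply Subtype.ext
  change L = lineSub (mk _ _)
  rw [← eq_mk c]
  have hle : L ≤ lineSub c := by
    intro z hz
    obtain ⟨r, s, rfl⟩ := hspan z hz
    rw [mem_lineSub, dotProduct_add, dotProduct_smul, dotProduct_smul, dotProduct_comm c v,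
      dotProduct_comm c w, hc, dot_self_cross, dot_cross_self]
    simp
  obtain ⟨i, hi⟩ := isUnit_of_ne (b := fun i => snd (c i)) hcf'
  rw [← eq_mk c] at hi
  obtain ⟨b'⟩ := basis_lineSub hi
  have h1 : Nat.card L = Nat.card (Fin 2 → F[ε]) := Nat.card_congr b.equivFun.toEquiv
  have h2 : Nat.card (lineSub c) = Nat.card (Fin 2 → F[ε]) := Nat.card_congr b'.equivFun.toEquiv
  apply SetLike.coe_injective
  apply Set.eq_of_subset_of_ncard_le hle _ (Set.toFinite _)
  have h3 : (lineSub c : Set (Fin 3 → F[ε])).ncard = Nat.card (lineSub c) := rfl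
  have h4 : (L : Set (Fin 3 → F[ε])).ncard = Nat.card L := rfl
  rw [h3, h4, h1, h2]

lemma pt_le_ln {x y a b : Fin 3 → F} {hx : x ≠ 0} {ha : a ≠ 0} :
    (pt x y hx).1 ≤ (ln a b ha).1 ↔ a ⬝ᵥ x = 0 ∧ a ⬝ᵥ y + b ⬝ᵥ x = 0 := by
  change Submodule.span F[ε] {mk x y} ≤ lineSub (mk a b) ↔ _
  rw [Submodule.span_singleton_le_iff_mem, mem_lineSub, dot_mk]

open Classical in
lemma S_km (g : Point F[ε] → ℕ) (a b : Fin 3 → F) (ha : a ≠ 0) :
    S (km g) a b = (Fintype.card F ^ 2 - Fintype.card F) *
      ∑ P, if P.1 ≤ (ln a b ha).1 then g P else 0 := by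
  rw [← sum_km]
  unfold S u
  refine Finset.sum_congr rfl fun z _ => Finset.sum_congr rfl fun y _ => ?_
  unfold km
  by_cases hz : z ≠ 0
  · rw [dif_pos hz, dif_pos hz]
    simp only [pt_le_ln]
  · rw [dif_neg hz, dif_neg hz]
    simp

end Pool.Agent.W288.Arc
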