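import Pool.Agent.W288.Arc2

set_option autoImplicit false
set_option linter.unusedSectionVars false

namespace Pool.Agent.W288.Arc

open Finset TrivSqZeroExt DualNumber
open Pool.Agent.W288.Hjelmslev

variable {F : Type} [Field F] [Fintype F] [DecidableEq F]

/-- The multiplicity of a point `x + ε y` in terms of `x` and of `c = y 2`. -/
def hv (A T : Finset F) (z : Fin 3 → F) (c : F) : ℕ :=
  if z 2 ≠ 0 then 1 else
  if z 0 ≠ 0 then (if c / z 0 - z 1 / z 0 ∈ A then 0 else 1) else
  if z 1 ≠ 0 then (if c = 0 then 2 else if c / z 1 ∈ T then 0 else 1) else 0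

def kk (A T : Finset F) (x y : Fin 3 → F) : ℕ := hv A T x (y 2)

lemma kk_mult (A T : Finset F) : Mult (kk A T) where
  zero y := by simp [kk, hv]
  inv α β hα x y := by
    unfold kk hv
    simp only [Pi.add_apply, Pi.smul_apply, smul_eq_mul]
    by_cases h2 : x 2 = 0
    · by_cases h0 : x 0 = 0
      · by_cases h1 : x 1 = 0
        · simp [h0, h1, h2]
        · simp [h0, h1, h2, hα, mul_div_mul_left]
      · simp [h0, h2, hα, mul_div_mul_left]
    · simp [h2, hα]

noncomputable def Kex (A T : Finset F) (P : Point F[ε]) : ℕ :=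
  kk A T (exists_pt P).choose (exists_pt P).choose_spec.choose

lemma kk_congr (A T : Finset F) {x y x' y' : Fin 3 → F} {hx : x ≠ 0} {hx' : x' ≠ 0}
    (h : pt x' y' hx' = pt x y hx) : kk A T x' y' = kk A T x y := by
  obtain ⟨α, β, hα, rfl, rfl⟩ := pt_eq_iff.1 h
  exact (kk_mult A T).inv α β hα x y

lemma Kex_pt (A T : Finset F) (x y : Fin 3 → F) (hx : x ≠ 0) : Kex A T (pt x y hx) = kk A T x y :=
  kk_congr A T (exists_pt (pt x y hx)).choose_spec.choose_spec.choose_spec.symm

lemma km_Kex (A T : Finset F) : km (Kex A T) = kk A T := by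
  funext x y
  unfold km
  by_cases hx : x ≠ 0
  · rw [dif_pos hx, Kex_pt]
  · rw [dif_neg hx]
    push Not at hx
    subst hx
    exact ((kk_mult A T).zero y).symm

/-- unit vector -/
def e2 : Fin 3 → F := ![0, 0, 1]

lemma e2_ne : (e2 : Fin 3 → F) ≠ 0 := by
  intro h
  have := congrFun h 2
  simp [e2] at this

lemma dot_e2 (y : Fin 3 → F) : y ⬝ᵥ e2 = y 2 := by
  simp [e2, dotProduct, Fin.sum_univ_three]

lemma sum_hv_1 (A T : Finset F) {z : Fin 3 → F} (hz : z 2 ≠ 0) :
    ∑ c, hv A T z c = Fintype.card F := by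
  simp [hv, hz]

lemma sum_hv_2 {A T : Finset F} {t : ℕ} (hA : #A = t) (hT : #T = t + 1) (h0 : (0 : F) ∉ T)
    {z : Fin 3 → F} (hz : z 2 = 0) (hz0 : z ≠ 0) :
    (∑ c, hv A T z c) + t = Fintype.card F := by
  by_cases h : z 0 = 0
  · have h1 : z 1 ≠ 0 := by
      intro h1
      apply hz0
      funext i
      fin_cases i <;> simp [h, h1, hz]
    have e1 : ∑ c, hv A T z c = ∑ d : F, (if d = 0 then 2 else if d ∈ T then 0 else 1) := by
      refine Fintype.sum_equiv (Equiv.divRight₀ (z 1) h1) _ _ ?_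
      intro c
      simp only [hv, hz, h, h1, ne_eq, not_true_eq_false, if_false, not_false_eq_true, if_true,
        Equiv.divRight₀_apply, div_eq_zero_iff, or_false]
    have e3 : ∑ d : F, ((if d = 0 then 2 else if d ∈ T then 0 else 1) + (if d ∈ T then 1 else 0)) =
        ∑ d : F, (1 + (if d = 0 then 1 else 0)) := by
      refine Finset.sum_congr rfl fun d _ => ?_
      by_cases hd : d = 0
      · subst hd; simp [h0]
      · by_cases hd' : d ∈ T <;> simp [hd, hd']
    rw [Finset.sum_add_distrib, Finset.sum_add_distrib] at e3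
    simp only [sum_ite_mem, univ_inter, sum_const, smul_eq_mul, mul_one, card_univ, sum_ite_eq',
      mem_univ, if_true, hT] at e3
    rw [e1]
    omega
  · have e1 : ∑ c, hv A T z c = ∑ d : F, (if d ∈ A then 0 else 1) := by
      refine Fintype.sum_equiv ((Equiv.divRight₀ (z 0) h).trans (Equiv.subRight (z 1 / z 0))) _ _ ?_
      intro c
      simp [hv, hz, h]
    have e3 : ∑ d : F, ((if d ∈ A then 0 else 1) + (if d ∈ A then 1 else 0)) =
        ∑ d : F, 1 := by
      refine Finset.sum_congr rfl fun d _ => ?_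
      by_cases hd' : d ∈ A <;> simp [hd']
    rw [Finset.sum_add_distrib] at e3
    simp only [sum_ite_mem, univ_inter, sum_const, smul_eq_mul, mul_one, card_univ, hA] at e3
    rw [e1]
    exact e3

lemma hv_zero (A T : Finset F) (c : F) : hv A T 0 c = 0 := by simp [hv]

lemma card_z2 : #{z : Fin 3 → F | z 2 = 0} = Fintype.card F ^ 2 := by
  rw [← card1 (e2_ne (F := F)) 0]
  congr 1
  ext z
  simp [dot_e2]

/-- weighted sum over a set of vectors `z`. -/
lemma sum_sum_hv {A T : Finset F} {t : ℕ} (hA : #A = t) (hT : #T = t + 1) (h0 : (0 : F) ∉ T)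
    (D : Finset (Fin 3 → F)) (hD : 0 ∈ D) :
    (∑ z ∈ D, ∑ c, hv A T z c) + #(D.filter (fun z => z 2 = 0)) * t + Fintype.card F =
      #D * Fintype.card F + t := by
  have h1 : (∑ z ∈ D, ((∑ c, hv A T z c) + (if z 2 = 0 then t else 0) +
      (if z = 0 then Fintype.card F else 0))) =
      ∑ z ∈ D, (Fintype.card F + (if z = 0 then t else 0)) := by
    refine Finset.sum_congr rfl fun z _ => ?_
    by_cases hz : z = 0
    · subst hz
      simp [hv_zero]
      omega
    · by_cases hz2 : z 2 = 0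
      · have := sum_hv_2 hA hT h0 hz2 hz
        simp only [hz2, hz, if_true, if_false]
        omega
      · simp only [hz2, hz, if_false, sum_hv_1 A T hz2]
  rw [Finset.sum_add_distrib, Finset.sum_add_distrib, Finset.sum_add_distrib] at h1
  simp only [Finset.sum_ite_eq', hD, if_true, Finset.sum_const, smul_eq_mul] at h1
  rw [← Finset.sum_filter, Finset.sum_const, smul_eq_mul] at h1
  exact h1

lemma sum_y (A T : Finset F) (z : Fin 3 → F) :
    ∑ y, kk A T z y = Fintype.card F ^ 2 * ∑ c, hv A T z c := by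
  have h1 : ∀ y : Fin 3 → F, kk A T z y = ∑ c : F, if y 2 = c then hv A T z c else 0 := by
    intro y
    simp [kk]
  rw [Finset.sum_congr rfl (fun y _ => h1 y), Finset.sum_comm, Finset.mul_sum]
  refine Finset.sum_congr rfl fun c _ => ?_
  rw [← Finset.sum_filter, Finset.sum_const, smul_eq_mul]
  congr 1
  rw [← card1 (e2_ne (F := F)) c]
  congr 1
  ext z
  simp [dot_e2]

lemma total_kk {A T : Finset F} {t : ℕ} (hA : #A = t) (hT : #T = t + 1) (h0 : (0 : F) ∉ T)
    {n : ℕ} (hn : n + t = Fintype.card F ^ 2 + Fintype.card F) (ht : t ≤ Fintype.card F) :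
    (∑ z, u (kk A T) z) = (Fintype.card F ^ 2 - Fintype.card F) *
      (Fintype.card F * (Fintype.card F + 1) * n - Fintype.card F ^ 3) := by
  set q := Fintype.card F with hq
  have hq2 : 2 ≤ q := Fintype.one_lt_card
  have h1 : ∑ z, u (kk A T) z = q ^ 2 * ∑ z, ∑ c, hv A T z c := by
    rw [Finset.mul_sum]
    exact Finset.sum_congr rfl fun z _ => sum_y A T z
  have h2 := sum_sum_hv hA hT h0 (univ : Finset (Fin 3 → F)) (mem_univ _)
  rw [card_z2] at h2
  have h3 : #(univ : Finset (Fin 3 → F)) = q ^ 3 := by simp [hq]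
  rw [h3, ← hq] at h2
  rw [h1]
  set X := ∑ z, ∑ c, hv A T z c
  have hle : q ^ 3 ≤ q * (q + 1) * n := by
    have : q ^ 2 ≤ n := by omega
    calc q ^ 3 = q * 1 * q ^ 2 := by ring
      _ ≤ q * (q + 1) * n := by gcongr; omega
  zify [show q ≤ q ^ 2 from Nat.le_self_pow (by norm_num) q, hle]
  zify at h2 hn
  have e1 : (X : ℤ) = q ^ 3 * q + t - q ^ 2 * t - q := by linarith
  have e2 : (n : ℤ) = q ^ 2 + q - t := by linarith
  rw [e1, e2]
  ring

/-- lines not in the special class -/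
lemma line_kk_1 {A T : Finset F} {t : ℕ} (hA : #A = t) (hT : #T = t + 1) (h0 : (0 : F) ∉ T)
    {n : ℕ} (hn : n + t = Fintype.card F ^ 2 + Fintype.card F) {a b : Fin 3 → F}
    (ha : ∀ α : F, a ≠ α • e2) :
    S (kk A T) a b ≤ (Fintype.card F ^ 2 - Fintype.card F) * n := by
  have ha0 : a ≠ 0 := by
    intro h; exact ha 0 (by rw [h, zero_smul])
  set q := Fintype.card F with hq
  have hq2 : 2 ≤ q := Fintype.one_lt_card
  have h1 : S (kk A T) a b = q * ∑ z with a ⬝ᵥ z = 0, ∑ c, hv A T z c := by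
    unfold S
    rw [Finset.sum_filter, Finset.mul_sum]
    refine Finset.sum_congr rfl fun z _ => ?_
    by_cases hz : a ⬝ᵥ z = 0
    · rw [if_pos hz]
      have h2 : ∀ y : Fin 3 → F, (if a ⬝ᵥ z = 0 ∧ a ⬝ᵥ y + b ⬝ᵥ z = 0 then kk A T z y else 0) =
          ∑ c : F, if (y ⬝ᵥ e2 = c ∧ y ⬝ᵥ a = -(b ⬝ᵥ z)) then hv A T z c else 0 := by
        intro y
        rw [dot_e2, dotProduct_comm y a]
        by_cases hy : a ⬝ᵥ y = -(b ⬝ᵥ z)
        · have hy' : a ⬝ᵥ y + b ⬝ᵥ z = 0 := by rw [hy]; ring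
          simp [hz, hy, kk]
        · have hy' : ¬ (a ⬝ᵥ y + b ⬝ᵥ z = 0) := fun h => hy (by linear_combination h)
          simp [hy, hy']
      rw [Finset.sum_congr rfl (fun y _ => h2 y), Finset.sum_comm, Finset.mul_sum]
      refine Finset.sum_congr rfl fun c _ => ?_
      rw [← Finset.sum_filter, Finset.sum_const, card2 e2_ne ha, smul_eq_mul]
    · simp [hz]
  have h2 := sum_sum_hv hA hT h0 ({z : Fin 3 → F | a ⬝ᵥ z = 0} : Finset _) (by simp)
  have h3 : #({z : Fin 3 → F | a ⬝ᵥ z = 0} : Finset _) = q ^ 2 := by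
    rw [← card1 ha0 0]
    congr 1
    ext z; simp [dotProduct_comm]
  have h4 : #(({z : Fin 3 → F | a ⬝ᵥ z = 0} : Finset _).filter (fun z => z 2 = 0)) = q := by
    rw [Finset.filter_filter]
    have h5 := card2 (e2_ne (F := F)) ha 0 0
    rw [← hq] at h5
    rw [← h5]
    congr 1
    ext z; simp [dotProduct_comm a z, dot_e2, and_comm]
  rw [h3, h4, ← hq] at h2
  rw [h1]
  set X := ∑ z with a ⬝ᵥ z = 0, ∑ c, hv A T z c
  apply le_of_eq
  zify [show q ≤ q ^ 2 from Nat.le_self_pow (by norm_num) q]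
  zify at h2 hn
  have e1 : (X : ℤ) = q ^ 2 * q + t - q * t - q := by linarith
  have e2 : (n : ℤ) = q ^ 2 + q - t := by linarith
  rw [e1, e2]
  ring

end Pool.Agent.W288.Arc
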